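import Pool.Agent.H717.NL.Stmts2

set_option autoImplicit false

/-!
# MP_26b317_lc, project NL717 (helper717): fast multiplication from negacyclic convolution
-/

open Polynomial

namespace Pool.Agent.H170.NL

open Pool.Agent.H717.NL

/-- padding with zeros -/
noncomputable def pad (N : ℕ) {m : ℕ} (v : Fin m → ℝ) : Fin N → ℝ :=
  fun j => if h : (j : ℕ) < m then v ⟨j, h⟩ else 0

theorem toPoly_eq_range {m : ℕ} (v : Fin m → ℝ) :
    toPoly v = ∑ i ∈ Finset.range m, C (Pool.Agent.H717.NL.ext v i) * X ^ i := by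
  unfold toPoly
  rw [Finset.sum_range]
  refine Finset.sum_congr rfl fun i _ => ?_
  unfold Pool.Agent.H717.NL.ext
  rw [dif_pos i.2]

theorem toPoly_pad {N m : ℕ} (h : m ≤ N) (v : Fin m → ℝ) : toPoly (pad N v) = toPoly v := by
  rw [toPoly_eq_range, toPoly_eq_range]
  symm
  have h1 : ∀ i ∈ Finset.range m, C (Pool.Agent.H717.NL.ext v i) * X ^ i = (C (Pool.Agent.H717.NL.ext (pad N v) i) * X ^ i : ℝ[X]) := by
    intro i hi
    have him := Finset.mem_range.1 hi
    unfold Pool.Agent.H717.NL.ext pad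
    rw [dif_pos him, dif_pos (lt_of_lt_of_le him h)]
    simp only [him, dite_true]
  rw [Finset.sum_congr rfl h1]
  refine Finset.sum_subset (Finset.range_mono h) fun i hi hi' => ?_
  have h2 := Finset.mem_range.1 hi
  have h3 : ¬ i < m := fun h4 => hi' (Finset.mem_range.2 h4)
  unfold Pool.Agent.H717.NL.ext pad
  rw [dif_pos h2]
  simp only [h3, dite_false, C_0, zero_mul]

theorem degree_toPoly {m : ℕ} (v : Fin m → ℝ) : (toPoly v).degree < m := by
  exact degree_sum_fin_lt v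

theorem cmp_pad (N m l : ℕ) :
    Cmp (fun p : (Fin m → ℝ) × (Fin l → ℝ) => ((pad N p.1 : Fin N → ℝ), (pad N p.2 : Fin N → ℝ)))
      3 := by
  have h1 : Cmp (fun q : ((Fin m → ℝ) × (Fin l → ℝ)) × ℝ =>
      (((fun j => if h : (j : ℕ) < m then q.1.1 ⟨j, h⟩ else q.2 : Fin N → ℝ)),
        ((fun j => if h : (j : ℕ) < l then q.1.2 ⟨j, h⟩ else q.2 : Fin N → ℝ)))) 0 := by
    refine Cmp.free (Sum.elim
      (fun r : Fin N × Unit => if h : (r.1 : ℕ) < m then Sum.inl (Sum.inl ((⟨r.1, h⟩ : Fin m), ()))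
        else Sum.inr ())
      (fun r : Fin N × Unit => if h : (r.1 : ℕ) < l then Sum.inl (Sum.inr ((⟨r.1, h⟩ : Fin l), ()))
        else Sum.inr ())) ?_
    rintro ⟨⟨v, w⟩, z⟩ (⟨j, u⟩ | ⟨j, u⟩)
    · by_cases h : (j : ℕ) < m
      · simp only [Sum.elim_inl, h, dite_true]
        show (if h : (j : ℕ) < m then v ⟨j, h⟩ else z) = v ⟨j, h⟩
        rw [dif_pos h]
      · simp only [Sum.elim_inl, h, dite_false]
        show (if h : (j : ℕ) < m then v ⟨j, h⟩ else z) = z
        rw [dif_neg h]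
    · by_cases h : (j : ℕ) < l
      · simp only [Sum.elim_inr, h, dite_true]
        show (if h : (j : ℕ) < l then w ⟨j, h⟩ else z) = w ⟨j, h⟩
        rw [dif_pos h]
      · simp only [Sum.elim_inr, h, dite_false]
        show (if h : (j : ℕ) < l then w ⟨j, h⟩ else z) = z
        rw [dif_neg h]
  exact (Cmp.zero.bind h1).mono (by omega)

theorem t_mul (h : S_neg) : S_mul := by
  obtain ⟨K, hK⟩ := h
  refine ⟨8 * K + 3, fun k m l q hm hl hq => ?_⟩
  have hkk : 2 ^ (k + 1) = 2 ^ k + 2 ^ k := by rw [pow_succ]; ring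
  have h1 := (cmp_pad (2 ^ (k + 1)) m l).comp
    ((hK (k + 1)).comp (Cmp.reindex (α := ℝ) (fun i : Fin q => (⟨i, lt_of_lt_of_le i.2 hq⟩ :
      Fin (2 ^ (k + 1))))))
  refine (h1.mono ?_).congr fun p => ?_
  · have e1 : K * 2 ^ (k + 1) * (k + 1 + 1) ^ 2 ≤ 8 * K * 2 ^ k * (k + 1) ^ 2 := by
      have e2 : (k + 1 + 1) ^ 2 ≤ 4 * (k + 1) ^ 2 := by
        calc (k + 1 + 1) ^ 2 ≤ (2 * (k + 1)) ^ 2 := Nat.pow_le_pow_left (by omega) 2
          _ = _ := by ring
      calc K * 2 ^ (k + 1) * (k + 1 + 1) ^ 2 ≤ K * 2 ^ (k + 1) * (4 * (k + 1) ^ 2) :=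
            Nat.mul_le_mul_left _ e2
        _ = _ := by rw [pow_succ]; ring
    have e3 : 1 ≤ 2 ^ k * (k + 1) ^ 2 := Nat.one_le_iff_ne_zero.2 (by positivity)
    calc 3 + (K * 2 ^ (k + 1) * (k + 1 + 1) ^ 2 + 0) ≤
          3 * (2 ^ k * (k + 1) ^ 2) + 8 * K * 2 ^ k * (k + 1) ^ 2 := by omega
      _ = _ := by ring
  · funext i
    show ((toPoly (pad (2 ^ (k + 1)) p.1) * toPoly (pad (2 ^ (k + 1)) p.2)) %ₘ
      (X ^ (2 ^ (k + 1)) + 1)).coeff (i : ℕ) = _
    rw [toPoly_pad (by omega), toPoly_pad (by omega)]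
    congr 1
    have hpos : 0 < 2 ^ (k + 1) := by positivity
    have hmon : (X ^ (2 ^ (k + 1)) + 1 : ℝ[X]).Monic := by
      have := monic_X_pow_add_C (1 : ℝ) (n := 2 ^ (k + 1)) hpos.ne'
      rwa [C_1] at this
    rw [modByMonic_eq_self_iff hmon]
    have hdeg : (X ^ (2 ^ (k + 1)) + 1 : ℝ[X]).degree = ((2 ^ (k + 1) : ℕ) : WithBot ℕ) := by
      have := degree_X_pow_add_C (R := ℝ) hpos 1
      rwa [C_1] at this
    rw [hdeg, degree_mul]
    have d1 := degree_toPoly p.1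
    have d2 := degree_toPoly p.2
    rcases eq_or_ne (toPoly p.1) 0 with e | e
    · rw [e, degree_zero, WithBot.bot_add]
      exact WithBot.bot_lt_coe _
    rcases eq_or_ne (toPoly p.2) 0 with e' | e'
    · rw [e', degree_zero, WithBot.add_bot]
      exact WithBot.bot_lt_coe _
    rw [degree_eq_natDegree e] at d1 ⊢
    rw [degree_eq_natDegree e'] at d2 ⊢
    have d1' : (toPoly p.1).natDegree < m := by exact_mod_cast d1
    have d2' : (toPoly p.2).natDegree < l := by exact_mod_cast d2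
    have : (toPoly p.1).natDegree + (toPoly p.2).natDegree < 2 ^ (k + 1) := by omega
    exact_mod_cast this

end Pool.Agent.H170.NL
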