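import Pool.Agent.H717.NL.Stmts2

set_option autoImplicit false

/-!
# MP_26b317_lc, project NL717 (helper717): the dyadic search
-/

namespace Pool.Agent.H170.NL

open Pool.Agent.H717.NL

theorem sd_split (g : ℝ → ℝ) (m h : ℝ) :
    sd g m h = sd g (m - h / 2) (h / 2) + 2 * sd g m (h / 2) + sd g (m + h / 2) (h / 2) := by
  unfold sd
  have e1 : m - h / 2 + h / 2 = m := by ring
  have e2 : m - h / 2 - h / 2 = m - h := by ring
  have e3 : m + h / 2 + h / 2 = m + h := by ring
  have e4 : m + h / 2 - h / 2 = m := by ring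
  rw [e1, e2, e3, e4]
  ring

theorem sd_approx {f g : ℝ → ℝ} {τ : ℝ} (hfg : ∀ x, 0 ≤ x → x ≤ 1 → |f x - g x| ≤ τ) {m h : ℝ}
    (hh : 0 ≤ h) (h0 : 0 ≤ m - h) (h1 : m + h ≤ 1) :
    sd f m h ≤ sd g m h + 4 * τ ∧ sd g m h ≤ sd f m h + 4 * τ := by
  have a1 := abs_le.1 (hfg (m + h) (by linarith) h1)
  have a2 := abs_le.1 (hfg (m - h) h0 (by linarith))
  have a3 := abs_le.1 (hfg m (by linarith) (by linarith))
  unfold sd
  constructor <;> linarith [a1.1, a1.2, a2.1, a2.2, a3.1, a3.2]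

theorem round_step {f g : ℝ → ℝ} {τ : ℝ} (hfg : ∀ x, 0 ≤ x → x ≤ 1 → |f x - g x| ≤ τ) (s : ℝ × ℝ)
    (hh : 0 ≤ s.2) (h0 : 0 ≤ s.1 - s.2) (h1 : s.1 + s.2 ≤ 1) :
    (round f s).2 = s.2 / 2 ∧ 0 ≤ (round f s).1 - (round f s).2 ∧
      (round f s).1 + (round f s).2 ≤ 1 ∧
      sd g (round f s).1 (round f s).2 ≤ sd g s.1 s.2 / 4 + 8 * τ := by
  obtain ⟨m, h⟩ := s
  dsimp only at hh h0 h1
  have b1 := sd_approx hfg (m := m - h / 2) (h := h / 2) (by linarith) (by linarith) (by linarith)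
  have b2 := sd_approx hfg (m := m) (h := h / 2) (by linarith) (by linarith) (by linarith)
  have b3 := sd_approx hfg (m := m + h / 2) (h := h / 2) (by linarith) (by linarith) (by linarith)
  have e := sd_split g m h
  unfold Pool.Agent.H717.NL.round
  dsimp only
  split_ifs with c1 c2 c3
  · refine ⟨rfl, ?_, ?_, ?_⟩
    · dsimp only
      linarith
    · dsimp only
      linarith
    · dsimp only
      linarith [b1.1, b1.2, b2.1, b2.2, b3.1, b3.2]
  · refine ⟨rfl, ?_, ?_, ?_⟩
    · dsimp only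
      linarith
    · dsimp only
      linarith
    · dsimp only
      push Not at c2
      linarith [b1.1, b1.2, b2.1, b2.2, b3.1, b3.2]
  · refine ⟨rfl, ?_, ?_, ?_⟩
    · dsimp only
      linarith
    · dsimp only
      linarith
    · dsimp only
      push Not at c1
      linarith [b1.1, b1.2, b2.1, b2.2, b3.1, b3.2]
  · refine ⟨rfl, ?_, ?_, ?_⟩
    · dsimp only
      linarith
    · dsimp only
      linarith
    · dsimp only
      push Not at c1 c3
      linarith [b1.1, b1.2, b2.1, b2.2, b3.1, b3.2]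

theorem t_search : S_search := by
  intro f g τ hτ hfg L
  induction L with
  | zero =>
    refine ⟨?_, ?_, ?_, ?_⟩
    · norm_num
    · norm_num
    · norm_num
    · simp only [Function.iterate_zero, _root_.id, pow_zero, div_one]
      linarith
  | succ L ih =>
    obtain ⟨i1, i2, i3, i4⟩ := ih
    rw [Function.iterate_succ_apply']
    have hpos : 0 ≤ ((Pool.Agent.H717.NL.round f)^[L] (1 / 2, 1 / 2)).2 := by
      rw [i1]
      positivity
    obtain ⟨j1, j2, j3, j4⟩ := round_step hfg _ hpos i2 i3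
    refine ⟨?_, j2, j3, ?_⟩
    · rw [j1, i1, pow_succ 2 (L + 1)]
      field_simp
    · refine j4.trans ?_
      have e1 : sd g (1 / 2) (1 / 2) / 4 ^ (L + 1) = sd g (1 / 2) (1 / 2) / 4 ^ L / 4 := by
        rw [pow_succ, div_div]
      rw [e1]
      linarith

end Pool.Agent.H170.NL
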